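import Pool.Agent.N550.TS.All2
import Pool.Agent.T2h58.All
import Pool.Agent.T2h58.Asm
import Pool.Agent.T2h58.Grid
import Pool.Agent.T2h58.Esc
import Pool.Agent.T2h58.Opn

/-!
# Closed simply connected 4-manifolds: thin sets, smooth homeomorphisms, exceptional points

Let `M` and `N` be closed simply connected smooth 4-manifolds. The following conditions are
equivalent:

* the complements of some closed subsets of `M` and of `N` with two-dimensional Hausdorff measure
  zero are diffeomorphic;
* `M` minus a point and `N` minus a point are diffeomorphic;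
* there is a homeomorphism `M → N` which is a local diffeomorphism at all points but one;
* there is a homeomorphism `M → N` of class `C^∞` (its derivative may be singular and its inverse
  need not be differentiable);
* there is a homeomorphism `M → N` which is of class `C^∞` near all points off a set whose image has
  one-dimensional Hausdorff measure zero.

The only hypothesis is Mathlib's `SimplyConnectedSpace` (no handle decomposition is given or used):
the simple connectivity is used through homotopies of paths, and the main tools are two engulfing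
theorems, for compact sets with two-dimensional Hausdorff measure zero and for compact sets in the
complement of the faces of dimension two of a fine cubical grid in a chart, relative to a ball.

The bound on the size of the removed sets is sharp: there are closed simply connected 4-manifolds
which are homeomorphic, not diffeomorphic after removing a point, and which become diffeomorphic
after removing smooth tori (logarithmic transforms of the K3 surface).

The lemmas of projects TC and SC (files `T2h58`) were proved by helpers 1 7 26 38 54 58 59 64 and the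
lead; they use the projects SH, KH and TS of the starting files.
-/

set_option autoImplicit false

open Set Filter Topology Metric Function
open scoped Manifold ContDiff

noncomputable section

namespace Pool.Agent.Results.MP_cb9bff_gt.AlmostDiffeomorphic

/-- `ℝ⁴` -/
abbrev R4 : Type := EuclideanSpace ℝ (Fin 4)

section defs

variable {M N : Type} [TopologicalSpace M] [ChartedSpace R4 M] [TopologicalSpace N]
  [ChartedSpace R4 N]

/-- the `d`-dimensional Hausdorff measure of `A` vanishes (in the preferred charts) -/
def HausdorffNull (d : ℝ) (A : Set M) : Prop :=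
  ∀ x₀ : M, MeasureTheory.Measure.hausdorffMeasure d
    (chartAt R4 x₀ '' ((chartAt R4 x₀).source ∩ A) : Set R4) = 0

/-- the open subsets `U` and `V` are diffeomorphic (of class `C^∞`) -/
def OpensDiffeomorphic (U : TopologicalSpace.Opens M) (V : TopologicalSpace.Opens N) : Prop :=
  Nonempty (Diffeomorph (𝓡 4) (𝓡 4) U V ∞)

/-- `f` is of class `C^∞` near `x` (no condition is imposed on the derivative) -/
def SmoothNear (f : M → N) (x : M) : Prop := ∀ᶠ y in 𝓝 x, ContMDiffAt (𝓡 4) (𝓡 4) ∞ f y

/-- `f` is of class `C^∞` (no condition is imposed on the derivative) -/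
def SmoothEverywhere (f : M → N) : Prop := ContMDiff (𝓡 4) (𝓡 4) ∞ f

/-- `f` is a local diffeomorphism (of class `C^∞`) at all points but one -/
def LocDiffOffPoint (f : M → N) : Prop :=
  ∃ x₀ : M, ∀ x, x ≠ x₀ → IsLocalDiffeomorphAt (𝓡 4) (𝓡 4) ∞ f x

end defs

section aux

variable {M : Type} [TopologicalSpace M] [ChartedSpace R4 M]

/-- points are thin -/
theorem null_point (x : M) : HausdorffNull 2 ({x} : Set M) := by
  intro x₀
  have h1 : (chartAt R4 x₀ '' ((chartAt R4 x₀).source ∩ {x}) : Set R4) ⊆ {chartAt R4 x₀ x} := by
    rintro _ ⟨y, ⟨-, hy⟩, rfl⟩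
    rw [mem_singleton_iff] at hy
    rw [hy]
    rfl
  have : MeasureTheory.NullSingletonClass (MeasureTheory.Measure.hausdorffMeasure 2 :
      MeasureTheory.Measure R4) :=
    MeasureTheory.Measure.nullSingletonClass_hausdorff R4 (by norm_num)
  exact MeasureTheory.measure_mono_null h1 (MeasureTheory.measure_singleton _)

end aux

/-- **The theorem.** For closed simply connected smooth 4-manifolds `M`, `N` the following conditions
are equivalent: the complements of some closed subsets with two-dimensional Hausdorff measure zero
are diffeomorphic; the complements of some points are diffeomorphic; there is a homeomorphism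
`M → N` which is a local diffeomorphism at all points but one; there is a homeomorphism `M → N` of
class `C^∞`; there is a homeomorphism `M → N` which is of class `C^∞` near all points off a set whose
image has one-dimensional Hausdorff measure zero. -/
theorem result (M N : Type) [TopologicalSpace M] [CompactSpace M] [T2Space M]
    [SimplyConnectedSpace M] [ChartedSpace R4 M] [IsManifold (𝓡 4) ∞ M] [TopologicalSpace N]
    [CompactSpace N] [T2Space N] [SimplyConnectedSpace N] [ChartedSpace R4 N]
    [IsManifold (𝓡 4) ∞ N] :
    [∃ (U : TopologicalSpace.Opens M) (V : TopologicalSpace.Opens N),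
        HausdorffNull 2 (U : Set M)ᶜ ∧ HausdorffNull 2 (V : Set N)ᶜ ∧ OpensDiffeomorphic U V,
      ∃ (x : M) (y : N), OpensDiffeomorphic (⟨{x}ᶜ, isOpen_compl_singleton⟩ :
        TopologicalSpace.Opens M) ⟨{y}ᶜ, isOpen_compl_singleton⟩,
      ∃ G : M ≃ₜ N, LocDiffOffPoint G,
      ∃ f : M ≃ₜ N, SmoothEverywhere f,
      ∃ f : M ≃ₜ N, HausdorffNull 1 (f '' {x | ¬ SmoothNear f x})].TFAE := by
  have hNne : Nonempty N := inferInstance
  tfae_have 1 → 3 := by
    rintro ⟨U, V, hUn, hVn, ⟨Φ⟩⟩
    have hUc : IsClosed (U : Set M)ᶜ := U.isOpen.isClosed_compl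
    have hVc : IsClosed (V : Set N)ᶜ := V.isOpen.isClosed_compl
    obtain ⟨g, hg1, hg2, hg3⟩ := Pool.Agent.T2h58.Opn.exists_map U V Φ
    have hUn' := Pool.Agent.T2h58.Cel.null 4 M (U : Set M)ᶜ hUn
    have hVn' := Pool.Agent.T2h58.Cel.null 4 N (V : Set N)ᶜ hVn
    obtain ⟨c₁, ⟨h1i, h1d⟩, h1r⟩ := Pool.Agent.T2h58.pp M (U : Set M)ᶜ hUc.isCompact hUn'
    obtain ⟨c₂, ⟨h2i, h2d⟩, h2r⟩ := Pool.Agent.T2h58.pp N (V : Set N)ᶜ hVc.isCompact hVn'
    exact Pool.Agent.T2h58.Asm.main Pool.Agent.T2h58.Grid.main Pool.Agent.T2h58.Esc.main M N
      (U : Set M)ᶜ (V : Set N)ᶜ g c₁ c₂ hUc hVc hUn' hVn' h1i h1d h1r h2i h2d h2r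
      (fun x hx => hg1 x (not_not.1 hx)) (by rw [compl_compl]; exact hg2)
      (by rw [compl_compl, compl_compl]; exact hg3)
  tfae_have 5 → 3 := by
    rintro ⟨f, hf⟩
    exact Pool.Agent.T2h58.fin M N f hf
  tfae_have 3 → 4 := by
    rintro ⟨G, x₀, hG⟩
    exact Pool.Agent.N550.TS.flm 4 M N G x₀ hG
  tfae_have 4 → 5 := by
    rintro ⟨f, hf⟩
    refine ⟨f, fun y₀ => ?_⟩
    have h1 : {x | ¬ SmoothNear f x} = ∅ := by
      ext x
      simp only [mem_ofPred_eq, mem_empty_iff_false, iff_false, not_not]
      exact Eventually.of_forall fun y => hf y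
    rw [h1]
    simp
  tfae_have 3 → 2 := by
    rintro ⟨G, x₀, hG⟩
    refine ⟨x₀, G x₀, Pool.Agent.T2h58.Opn.exists_diffeo _ _ G (fun x hx => hG x hx)
      G.injective.injOn ?_⟩
    show G '' {x₀}ᶜ = {G x₀}ᶜ
    rw [image_compl_eq G.bijective, image_singleton]
  tfae_have 2 → 1 := by
    rintro ⟨x, y, h⟩
    refine ⟨_, _, ?_, ?_, h⟩
    · show HausdorffNull 2 (({x}ᶜ)ᶜ : Set M)
      rw [compl_compl]
      exact null_point x
    · show HausdorffNull 2 (({y}ᶜ)ᶜ : Set N)
      rw [compl_compl]
      exact null_point y
  tfae_finish

end Pool.Agent.Results.MP_cb9bff_gt.AlmostDiffeomorphic
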