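import Pool.Agent.T2h58.Opn2

/-!
# Closed simply connected 4-manifolds: how small are the sets with complement `ℝ⁴`?

Let `M` be a closed simply connected smooth 4-manifold.

* For every gauge function `m` with `m (r) = o (r ^ 2)` the manifold `M` is the disjoint union of an
  open subset diffeomorphic to `ℝ⁴` and of a compact set whose Hausdorff measure of gauge `m`
  vanishes (for example the `s`-dimensional Hausdorff measure, for a given `s > 2`). So any two
  closed simply connected smooth 4-manifolds, homeomorphic or not, become diffeomorphic after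
  removing such sets.
* The gauge `r ^ 2` is exactly the threshold: there is such a decomposition with a set whose
  two-dimensional Hausdorff measure vanishes if and only if `M` minus a point is diffeomorphic to
  `ℝ⁴`, and if and only if the complement of some closed set with vanishing two-dimensional Hausdorff
  measure is diffeomorphic to an open subset of `ℝ⁴`.

The only hypothesis on `M` is Mathlib's `SimplyConnectedSpace`; no handle decomposition is given or
used. (If the decomposition of `M` had no 3-handles, a two-dimensional complex would do; it is not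
known whether there is always such a handle decomposition.)

The lemmas (files `T2h58`) were proved by helpers 26 38 58 59 64 and the lead; they use the projects
SH and KH of the starting files.
-/

set_option autoImplicit false

open Set Filter Topology Metric Function
open scoped Manifold ContDiff

noncomputable section

namespace Pool.Agent.Results.MP_cb9bff_gt.ResidualSets

/-- `ℝ⁴` -/
abbrev R4 : Type := EuclideanSpace ℝ (Fin 4)

section defs

variable {M : Type} [TopologicalSpace M] [ChartedSpace R4 M]

/-- the Hausdorff measure of `A` with gauge function `m` vanishes (in the preferred charts) -/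
def GaugeNull (m : ENNReal → ENNReal) (A : Set M) : Prop :=
  ∀ x₀ : M, MeasureTheory.Measure.mkMetric m
    (chartAt R4 x₀ '' ((chartAt R4 x₀).source ∩ A) : Set R4) = 0

/-- the two-dimensional Hausdorff measure of `A` vanishes (in the preferred charts) -/
def HausdorffNull2 (A : Set M) : Prop :=
  ∀ x₀ : M, MeasureTheory.Measure.hausdorffMeasure 2
    (chartAt R4 x₀ '' ((chartAt R4 x₀).source ∩ A) : Set R4) = 0

/-- the open subset `U` is diffeomorphic to `ℝ⁴` -/
def DiffeomorphicToR4 (U : TopologicalSpace.Opens M) : Prop :=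
  Nonempty (Diffeomorph (𝓡 4) (𝓡 4) U R4 ∞)

/-- the open subset `U` is diffeomorphic to an open subset of `ℝ⁴`: there is an injective local
diffeomorphism from `U` to `ℝ⁴` -/
def EmbedsInR4 (U : TopologicalSpace.Opens M) : Prop :=
  ∃ j : U → R4, Injective j ∧ IsLocalDiffeomorph (𝓡 4) (𝓡 4) ∞ j

end defs

/-- **The theorem.** Let `M` be a closed simply connected smooth 4-manifold. For every gauge function
`m` with `m (r) = o (r ^ 2)` some open subset of `M` is diffeomorphic to `ℝ⁴` and has a complement of
vanishing Hausdorff measure of gauge `m`. The following conditions are equivalent: some open subset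
of `M` is diffeomorphic to `ℝ⁴` and has a complement of vanishing two-dimensional Hausdorff measure;
some open subset of `M` has a complement of vanishing two-dimensional Hausdorff measure and is
diffeomorphic to an open subset of `ℝ⁴`; the complement of some point is diffeomorphic to `ℝ⁴`. -/
theorem result (M : Type) [TopologicalSpace M] [CompactSpace M] [T2Space M]
    [SimplyConnectedSpace M] [ChartedSpace R4 M] [IsManifold (𝓡 4) ∞ M] :
    (∀ m : ENNReal → ENNReal, m 0 = 0 → Tendsto (fun r => m r / r ^ 2) (𝓝[≠] 0) (𝓝 0) →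
      ∃ U : TopologicalSpace.Opens M, DiffeomorphicToR4 U ∧ GaugeNull m (U : Set M)ᶜ) ∧
    [∃ U : TopologicalSpace.Opens M, DiffeomorphicToR4 U ∧ HausdorffNull2 (U : Set M)ᶜ,
      ∃ U : TopologicalSpace.Opens M, EmbedsInR4 U ∧ HausdorffNull2 (U : Set M)ᶜ,
      ∃ x : M, DiffeomorphicToR4 (⟨{x}ᶜ, isOpen_compl_singleton⟩ :
        TopologicalSpace.Opens M)].TFAE := by
  refine ⟨fun m hm0 hm => ?_, ?_⟩
  · obtain ⟨g, hg, hgn⟩ := Pool.Agent.T2h58.Res.main2
      (Pool.Agent.T2h58.Stg.main Pool.Agent.T2h58.Cov.main
        (Pool.Agent.T2h58.Stb.main Pool.Agent.T2h58.p2)) Pool.Agent.T2h58.Mon.main M m hm0 hm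
    refine ⟨⟨range g, Pool.Agent.T2h58.Det.cm_open hg⟩,
      Pool.Agent.T2h58.Opn.diffeo_of_cell _ hg rfl, fun x₀ => ?_⟩
    refine hgn (chartAt R4 x₀) (chartAt R4 x₀).source fun x hx => ?_
    have h1 := (contMDiffOn_chart (I := 𝓡 4) (n := ∞) (x := x₀)).contMDiffAt
      ((chartAt R4 x₀).open_source.mem_nhds hx)
    exact h1.of_le (show (1 : WithTop ℕ∞) ≤ ((⊤ : ℕ∞) : WithTop ℕ∞) by exact_mod_cast le_top)
  tfae_have 1 → 2 := by
    rintro ⟨U, ⟨Φ⟩, hU⟩
    exact ⟨U, ⟨Φ, Φ.injective, Φ.isLocalDiffeomorph⟩, hU⟩
  tfae_have 2 → 3 := by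
    rintro ⟨U, ⟨j, hj, hjd⟩, hU⟩
    obtain ⟨φ, hφ, hφi⟩ := Pool.Agent.T2h58.Opn.exists_map' U j hj hjd
    obtain ⟨g, x₀, hg, hgr⟩ := Pool.Agent.T2h58.Opn.almost (U : Set M)ᶜ U.isOpen.isClosed_compl
      (Pool.Agent.T2h58.Cel.null 4 M (U : Set M)ᶜ hU) φ (fun x hx => hφ x (not_not.1 hx))
      (by rw [compl_compl]; exact hφi)
    exact ⟨x₀, Pool.Agent.T2h58.Opn.diffeo_of_cell _ hg hgr⟩
  tfae_have 3 → 1 := by
    rintro ⟨x, hx⟩
    refine ⟨_, hx, fun x₀ => ?_⟩
    show MeasureTheory.Measure.hausdorffMeasure 2
      (chartAt R4 x₀ '' ((chartAt R4 x₀).source ∩ ({x}ᶜ)ᶜ) : Set R4) = 0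
    rw [compl_compl]
    have h1 : (chartAt R4 x₀ '' ((chartAt R4 x₀).source ∩ {x}) : Set R4) ⊆
        {chartAt R4 x₀ x} := by
      rintro _ ⟨y, ⟨-, hy⟩, rfl⟩
      rw [mem_singleton_iff] at hy
      rw [hy]
      rfl
    have : MeasureTheory.NullSingletonClass (MeasureTheory.Measure.hausdorffMeasure 2 :
        MeasureTheory.Measure R4) :=
      MeasureTheory.Measure.nullSingletonClass_hausdorff R4 (by norm_num)
    exact MeasureTheory.measure_mono_null h1 (MeasureTheory.measure_singleton _)
  tfae_finish

end Pool.Agent.Results.MP_cb9bff_gt.ResidualSets
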