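import Pool.Agent.T2h58.Cv

/-!
# Maps onto closed simply connected 4-manifolds with thin sets of critical points

Let `N` be a closed simply connected smooth 4-manifold and let `M` be a closed connected smooth
4-manifold (with any fundamental group). The following conditions are equivalent:

* there is a continuous map `f : M → N` which is a local diffeomorphism at the points off a closed
  set `S` such that `S` and `f (S)` have two-dimensional Hausdorff measure zero;
* there is a map `f : M → N` of class `C^∞` whose set of critical points has two-dimensional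
  Hausdorff measure zero;
* there is a homeomorphism `f : M → N` of class `C^∞` with at most one critical point;
* `M` minus a point and `N` minus a point are diffeomorphic.

No injectivity is assumed in the first two conditions. The bound on the size of the set of critical
points is sharp: a branched covering along a surface, for example the double covering of `ℂP²` by
the K3 surface, has a set of critical points with finite two-dimensional Hausdorff measure. So such
a map between closed simply connected smooth 4-manifolds with different intersection forms, or with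
different smooth structures (not differing by a homotopy sphere), is critical at least on a set of
positive two-dimensional Hausdorff measure.

Ingredients: complements of thin sets are connected, and they are simply connected if and only if
the manifold is (general position of squares, project CV); covering maps; engulfing of thin sets
(project SC) and the assembly (project TC).
-/

set_option autoImplicit false

open Set Filter Topology Metric Function
open scoped Manifold ContDiff

noncomputable section

namespace Pool.Agent.Results.MP_cb9bff_gt.ThinCriticalSet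

/-- `ℝ⁴` -/
abbrev R4 : Type := EuclideanSpace ℝ (Fin 4)

section defs

variable {M N : Type} [TopologicalSpace M] [ChartedSpace R4 M] [TopologicalSpace N]
  [ChartedSpace R4 N]

/-- the two-dimensional Hausdorff measure of `A` vanishes (in the preferred charts) -/
def HausdorffNull2 (A : Set M) : Prop :=
  ∀ x₀ : M, MeasureTheory.Measure.hausdorffMeasure 2
    (chartAt R4 x₀ '' ((chartAt R4 x₀).source ∩ A) : Set R4) = 0

/-- `f` is a local diffeomorphism (of class `C^∞`) at `x` -/
def LocDiff (f : M → N) (x : M) : Prop := IsLocalDiffeomorphAt (𝓡 4) (𝓡 4) ∞ f x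

/-- the points at which `f` is not a local diffeomorphism, in other words the critical points if
`f` is of class `C^∞` -/
def CriticalPoints (f : M → N) : Set M := {x | ¬ LocDiff f x}

/-- `f` is of class `C^∞` -/
def Smooth (f : M → N) : Prop := ContMDiff (𝓡 4) (𝓡 4) ∞ f

/-- the open subsets `U` and `V` are diffeomorphic (of class `C^∞`) -/
def OpensDiffeomorphic (U : TopologicalSpace.Opens M) (V : TopologicalSpace.Opens N) : Prop :=
  Nonempty (Diffeomorph (𝓡 4) (𝓡 4) U V ∞)

end defs

/-- **The theorem.** Let `N` be a closed simply connected smooth 4-manifold and `M` a closed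
connected smooth 4-manifold. Equivalent: there is a continuous map `f : M → N` which is a local
diffeomorphism off a closed set `S` such that `S` and `f (S)` have two-dimensional Hausdorff measure
zero; there is a map `M → N` of class `C^∞` whose critical points form a set of two-dimensional
Hausdorff measure zero; there is a homeomorphism `M → N` of class `C^∞` with at most one critical
point; the complements of some points of `M` and `N` are diffeomorphic. -/
theorem result (M N : Type) [TopologicalSpace M] [CompactSpace M] [T2Space M] [ConnectedSpace M]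
    [ChartedSpace R4 M] [IsManifold (𝓡 4) ∞ M] [TopologicalSpace N] [CompactSpace N] [T2Space N]
    [SimplyConnectedSpace N] [ChartedSpace R4 N] [IsManifold (𝓡 4) ∞ N] :
    [∃ (f : M → N) (S : Set M), Continuous f ∧ IsClosed S ∧ HausdorffNull2 S ∧
        HausdorffNull2 (f '' S) ∧ ∀ x, x ∉ S → LocDiff f x,
      ∃ f : M → N, Smooth f ∧ HausdorffNull2 (CriticalPoints f),
      ∃ f : M ≃ₜ N, Smooth f ∧ (CriticalPoints f).Subsingleton,
      ∃ (x : M) (y : N), OpensDiffeomorphic (⟨{x}ᶜ, isOpen_compl_singleton⟩ :
        TopologicalSpace.Opens M) ⟨{y}ᶜ, isOpen_compl_singleton⟩].TFAE := by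
  have hlM : LocallyPathConnectedSpace M := ChartedSpace.locallyPathConnectedSpace R4 M
  have hpM : PathConnectedSpace M := PathConnectedSpace.of_locallyPathConnectedSpace
  have hsM : SecondCountableTopology M := ChartedSpace.secondCountable_of_sigmaCompact R4 M
  have hNne : Nonempty N := inferInstance
  have hflm : ∀ (G : M ≃ₜ N) (x₀ : M), (∀ x, x ≠ x₀ → LocDiff G x) →
      ∃ f : M ≃ₜ N, Smooth f ∧ (CriticalPoints f).Subsingleton := by
    intro G x₀ hG
    obtain ⟨f, hf, hfl⟩ := Pool.Agent.T2h58.Flm2.main Pool.Agent.N550.TS.Flt.main 4 M N G x₀ hG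
    have h1 : ∀ x ∈ CriticalPoints f, x = x₀ := fun x hx => by
      by_contra hcon
      exact hx (hfl x hcon)
    exact ⟨f, hf, fun x hx y hy => (h1 x hx).trans (h1 y hy).symm⟩
  tfae_have 1 → 3 := by
    rintro ⟨f, S, hf, hS, hSn, hfn, hl⟩
    obtain ⟨G, x₀, hG⟩ := Pool.Agent.T2h58.Cv.cover M N f S hf hS
      (Pool.Agent.T2h58.Cel.null 4 M S hSn) (Pool.Agent.T2h58.Cel.null 4 N _ hfn) hl
    exact hflm G x₀ hG
  tfae_have 3 → 2 := by
    rintro ⟨f, hf, hc⟩
    refine ⟨f, hf, ?_⟩
    refine Pool.Agent.T2h58.Cv.toC ?_
    rcases hc.eq_empty_or_singleton with h | ⟨x, h⟩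
    · rw [h]
      intro h' _ _
      simp
    · rw [h]
      exact Pool.Agent.T2h58.Cv.pt_null x
  tfae_have 2 → 1 := by
    rintro ⟨f, hf, hn⟩
    exact ⟨f, CriticalPoints f, ContMDiff.continuous hf, Pool.Agent.T2h58.Cv.crit_closed f, hn,
      Pool.Agent.T2h58.Cv.toC (Pool.Agent.T2h58.Img.img M N f _ hf
        (Pool.Agent.T2h58.Cel.null 4 M _ hn)), fun x hx => not_not.1 hx⟩
  tfae_have 3 → 4 := by
    rintro ⟨f, -, hc⟩
    obtain ⟨x, hx⟩ : ∃ x : M, CriticalPoints f ⊆ {x} := by
      rcases hc.eq_empty_or_singleton with h | ⟨x, h⟩
      · exact ⟨Classical.arbitrary M, by rw [h]; exact empty_subset _⟩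
      · exact ⟨x, h.subset⟩
    refine ⟨x, f x, Pool.Agent.T2h58.Opn.exists_diffeo _ _ f (fun z hz => ?_)
      f.injective.injOn ?_⟩
    · by_contra hcon
      exact hz (hx hcon)
    · show f '' {x}ᶜ = {f x}ᶜ
      rw [image_compl_eq f.bijective, image_singleton]
  tfae_have 4 → 3 := by
    rintro ⟨x, y, ⟨Φ⟩⟩
    obtain ⟨g, hg1, hg2, hg3⟩ := Pool.Agent.T2h58.Opn.exists_map _ _ Φ
    obtain ⟨G, x₀, hG⟩ := Pool.Agent.T2h58.Cv.core M N {x} {y} g isClosed_singleton
      isClosed_singleton (Pool.Agent.T2h58.Cv.pt_null x) (Pool.Agent.T2h58.Cv.pt_null y)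
      (fun z hz => hg1 z hz) hg2 hg3
    exact hflm G x₀ hG
  tfae_finish

end Pool.Agent.Results.MP_cb9bff_gt.ThinCriticalSet
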