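import Pool.Agent.T2h58.Cv

/-!
# Maps onto closed simply connected 4-manifolds with thin sets of critical values

Let `N` be a closed simply connected smooth 4-manifold, let `M` be any closed smooth 4-manifold
(connected or not, with any fundamental group), and let `k ≥ 1`. The following conditions are
equivalent:

* there is a continuous map `f : M → N` such that the image of the set of the points at which `f` is
  not a local diffeomorphism (for smooth `f`: the set of the critical values) has two-dimensional
  Hausdorff measure zero, and some point off this image has exactly `k` preimages;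
* there are a map `f : M → N` of class `C^∞` and a point `p` such that every critical value is equal
  to `p` and every point other than `p` has exactly `k` preimages;
* `M` contains `k` disjoint open subsets which are diffeomorphic to `N` minus a point (for connected
  `M`: `M` is a connected sum of `k` copies of `N` and of a closed 4-manifold `P`; if `M` is oriented
  then its intersection form is the sum of `k` forms `± Q_N` and of `Q_P`).

The bound on the size of the set of critical values is sharp: branched coverings along surfaces (for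
example the double covering of `ℂP²` by the K3 surface, or a covering of `S⁴` by an arbitrary closed
oriented 4-manifold) have sets of critical values with finite two-dimensional Hausdorff measure.

Ingredients: the set of critical values lies in an open cell of `N` (engulfing of compact sets with
two-dimensional Hausdorff measure zero, project SC), its complement is simply connected (general
position of squares, project CV), and the collapse of the complement of the copies can be made
smooth.
-/

set_option autoImplicit false

open Set Filter Topology Metric Function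
open scoped Manifold ContDiff

noncomputable section

namespace Pool.Agent.Results.MP_cb9bff_gt.ThinCriticalValues

/-- `ℝ⁴` -/
abbrev R4 : Type := EuclideanSpace ℝ (Fin 4)

section defs

variable {M N : Type} [TopologicalSpace M] [ChartedSpace R4 M] [TopologicalSpace N]
  [ChartedSpace R4 N]

/-- the two-dimensional Hausdorff measure of `A` vanishes (in the preferred charts) -/
def HausdorffNull2 (A : Set M) : Prop :=
  ∀ x₀ : M, MeasureTheory.Measure.hausdorffMeasure 2
    (chartAt R4 x₀ '' ((chartAt R4 x₀).source ∩ A) : Set R4) = 0

/-- the points at which `f` is not a local diffeomorphism (of class `C^∞`), in other words the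
critical points if `f` is of class `C^∞` -/
def CriticalPoints (f : M → N) : Set M := {x | ¬ IsLocalDiffeomorphAt (𝓡 4) (𝓡 4) ∞ f x}

/-- `f` is of class `C^∞` -/
def Smooth (f : M → N) : Prop := ContMDiff (𝓡 4) (𝓡 4) ∞ f

/-- the open subsets `U` and `V` are diffeomorphic (of class `C^∞`) -/
def OpensDiffeomorphic (U : TopologicalSpace.Opens M) (V : TopologicalSpace.Opens N) : Prop :=
  Nonempty (Diffeomorph (𝓡 4) (𝓡 4) U V ∞)

end defs

/-- **The theorem.** Let `N` be a closed simply connected smooth 4-manifold, `M` a closed smooth
4-manifold and `k ≥ 1`. Equivalent: there is a continuous map `f : M → N` such that the image of the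
set of the points at which it is not a local diffeomorphism has two-dimensional Hausdorff measure
zero and does not contain some point with exactly `k` preimages; there is a map `f : M → N` of class
`C^∞` such that all critical values are equal to a point `p` and all other points have exactly `k`
preimages; `M` contains `k` disjoint open subsets diffeomorphic to `N` minus a point. -/
theorem result (k : ℕ) (hk : k ≠ 0) (M N : Type) [TopologicalSpace M] [CompactSpace M]
    [T2Space M] [ChartedSpace R4 M] [IsManifold (𝓡 4) ∞ M] [TopologicalSpace N] [CompactSpace N]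
    [T2Space N] [SimplyConnectedSpace N] [ChartedSpace R4 N] [IsManifold (𝓡 4) ∞ N] :
    [∃ f : M → N, Continuous f ∧ HausdorffNull2 (f '' CriticalPoints f) ∧
        ∃ y : N, y ∉ f '' CriticalPoints f ∧ (f ⁻¹' {y}).ncard = k,
      ∃ (f : M → N) (p : N), Smooth f ∧ f '' CriticalPoints f ⊆ {p} ∧
        ∀ y : N, y ≠ p → (f ⁻¹' {y}).ncard = k,
      ∃ (p : N) (U : Fin k → TopologicalSpace.Opens M),
        (∀ i j, i ≠ j → Disjoint (U i : Set M) (U j)) ∧
        ∀ i, OpensDiffeomorphic (U i) (⟨{p}ᶜ, isOpen_compl_singleton⟩ :
          TopologicalSpace.Opens N)].TFAE := by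
  have hpt : ∀ p : N, HausdorffNull2 ({p} : Set N) := fun p =>
    Pool.Agent.T2h58.Cv.toC (Pool.Agent.T2h58.Cv.pt_null p)
  have hother : ∀ p : N, ∃ y : N, y ≠ p := fun p => by
    obtain ⟨y, -, hy⟩ := Pool.Agent.T2h58.Psc.nonint (M := N)
      (Pool.Agent.T2h58.Cv.pt_null p) isOpen_univ ⟨p, mem_univ p⟩
    exact ⟨y, hy⟩
  tfae_have 1 → 3 := by
    rintro ⟨f, hf, hn, y₀, hy₀, hk'⟩
    obtain ⟨p, j, hjl, hji, hjd⟩ := Pool.Agent.T2h58.Cv.copies k hk M N f hf
      (Pool.Agent.T2h58.Cel.null 4 N _ hn) y₀ hy₀ hk'
    have hop : ∀ i, IsOpen (j i '' {p}ᶜ) := fun i =>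
      Pool.Agent.Y522.isOpen_image_of_LD (n := 4) isOpen_compl_singleton fun x hx => hjl i x hx
    refine ⟨p, fun i => ⟨j i '' {p}ᶜ, hop i⟩, fun i i' hii => ?_, fun i => ?_⟩
    · show Disjoint (j i '' {p}ᶜ) (j i' '' {p}ᶜ)
      rw [Set.disjoint_left]
      rintro _ ⟨x, hx, rfl⟩ ⟨x', hx', h⟩
      exact hjd i i' x x' hii hx hx' h.symm
    · obtain ⟨Φ⟩ := Pool.Agent.T2h58.Opn.exists_diffeo (⟨{p}ᶜ, isOpen_compl_singleton⟩ :
        TopologicalSpace.Opens N) (⟨j i '' {p}ᶜ, hop i⟩ : TopologicalSpace.Opens M) (j i)
        (fun x hx => hjl i x hx) (hji i) rfl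
      exact ⟨Φ.symm⟩
  tfae_have 3 → 2 := by
    rintro ⟨p, U, hU, hd⟩
    obtain ⟨y, hy⟩ := hother p
    have hMne : Nonempty M := by
      obtain ⟨Φ⟩ := hd ⟨0, Nat.pos_of_ne_zero hk⟩
      exact ⟨(Φ.symm ⟨y, hy⟩ : M)⟩
    have hex : ∀ i, ∃ j : N → M, (∀ x ∈ ({p}ᶜ : Set N), Pool.Agent.Y522.LD 4 j x) ∧
        InjOn j {p}ᶜ ∧ j '' {p}ᶜ = U i := fun i => by
      obtain ⟨Φ⟩ := hd i
      exact Pool.Agent.T2h58.Opn.exists_map (⟨{p}ᶜ, isOpen_compl_singleton⟩ :
        TopologicalSpace.Opens N) (U i) Φ.symm
    choose j hjl hji hjr using hex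
    obtain ⟨f, hf, hfl, hfk⟩ := Pool.Agent.T2h58.Clp.main k M N p j hjl hji
      (fun i i' x x' hii hx hx' h => by
        have h1 : j i x ∈ (U i : Set M) := by
          rw [← hjr i]
          exact ⟨x, hx, rfl⟩
        have h2 : j i x ∈ (U i' : Set M) := by
          rw [h, ← hjr i']
          exact ⟨x', hx', rfl⟩
        exact Set.disjoint_left.1 (hU i i' hii) h1 h2)
    refine ⟨f, p, hf, ?_, hfk⟩
    rintro _ ⟨x, hx, rfl⟩
    by_contra hcon
    exact hx (hfl x hcon)
  tfae_have 2 → 1 := by
    rintro ⟨f, p, hf, hcrit, hfk⟩
    obtain ⟨y, hy⟩ := hother p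
    refine ⟨f, ContMDiff.continuous hf, fun x₀ => ?_, y, fun h => hy (hcrit h), hfk y hy⟩
    exact MeasureTheory.measure_mono_null (image_mono (inter_subset_inter_right _ hcrit))
      (hpt p x₀)
  tfae_finish

end Pool.Agent.Results.MP_cb9bff_gt.ThinCriticalValues
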